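import Pool.Agent.Helper96.SE.Stmts

set_option autoImplicit false

/-! # PTY: each edge is controlled by one party -/

namespace Pool.Agent.Helper96.SE

open Pool.Agent.Helper52.Grid

theorem pty_bst (s : List Sub) (a a' : ℕ → Bool) (i k : ℕ) (h : a i = a' i) :
    bst s a i k = bst s a' i k := by
  unfold bst
  rw [h]

theorem pty_kind {o : Sub} {i : ℕ} (h : kind o i = .dblk) : o = some (i, true) := by
  cases o with
  | none => exact absurd h (by simp [kind])
  | some vb =>
    obtain ⟨v, b⟩ := vb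
    unfold kind at h
    dsimp only at h
    split_ifs at h with e1 e2
    rw [e1, e2]

theorem pty_hO (s : List Sub) (pr pc : ℕ → Bool)
    (hp : ∀ k i d, sg s k = some (i, d) → pr i = pc k) (x y : ℕ) :
    ∃ b : Bool, ∀ a ch a' ch' : ℕ → Bool, (∀ i, pr i = b → a i = a' i) →
      (∀ k, pc k = b → ch k = ch' k) → hO s a ch x y = hO s a' ch' x y := by
  by_cases hy : y < 4
  · refine ⟨pc ((x - 5) / 4), fun a ch a' ch' _ h2 => ?_⟩
    unfold hO
    rw [if_pos hy, if_pos hy, h2 _ rfl]
  · refine ⟨pr ((y - 4) / 6), fun a ch a' ch' h1 h2 => ?_⟩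
    have hb : ∀ k, bst s a ((y - 4) / 6) k = bst s a' ((y - 4) / 6) k :=
      fun k => pty_bst s a a' _ k (h1 _ rfl)
    have hch : kind (sg s ((x - 5) / 4)) ((y - 4) / 6) = .dblk →
        ch ((x - 5) / 4) = ch' ((x - 5) / 4) := fun h =>
      h2 _ (hp _ _ _ (pty_kind h)).symm
    unfold hO
    rw [if_neg hy, if_neg hy]
    by_cases hx : x < 5
    · rw [if_pos hx, if_pos hx, hb]
    · rw [if_neg hx, if_neg hx]
      by_cases hx2 : x < 5 + 4 * s.length
      · rw [if_pos hx2, if_pos hx2, hb]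
        revert hch
        generalize kind (sg s ((x - 5) / 4)) ((y - 4) / 6) = K
        generalize (y - 4) % 6 = r
        intro hch
        cases K
        · rfl
        · rfl
        · rcases r with _ | _ | _ | _ | r <;> rfl
        · rw [hch rfl]
      · rw [if_neg hx2, if_neg hx2, hb]

theorem pty_vO (s : List Sub) (pr pc : ℕ → Bool)
    (hp : ∀ k i d, sg s k = some (i, d) → pr i = pc k) (x y : ℕ) :
    ∃ b : Bool, ∀ a ch a' ch' : ℕ → Bool, (∀ i, pr i = b → a i = a' i) →
      (∀ k, pc k = b → ch k = ch' k) → vO s a ch x y = vO s a' ch' x y := by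
  by_cases hy : y < 4
  · refine ⟨pc ((x - 5) / 4), fun a ch a' ch' _ h2 => ?_⟩
    unfold vO
    rw [if_pos hy, if_pos hy, h2 _ rfl]
  · by_cases hc : 5 ≤ x ∧ x < 5 + 4 * s.length ∧
      kind (sg s ((x - 5) / 4)) ((y - 4) / 6) = .cross
    · obtain ⟨hx, hx2, hK⟩ := hc
      refine ⟨pc ((x - 5) / 4), fun a ch a' ch' _ h2 => ?_⟩
      unfold vO
      have hx5 : ¬ x < 5 := by omega
      rw [if_neg hy, if_neg hy, if_neg hx5, if_neg hx5, if_pos hx2, if_pos hx2, hK]
      dsimp only
      rw [h2 _ rfl]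
    refine ⟨pr ((y - 4) / 6), fun a ch a' ch' h1 h2 => ?_⟩
    have hb : ∀ k, bst s a ((y - 4) / 6) k = bst s a' ((y - 4) / 6) k :=
      fun k => pty_bst s a a' _ k (h1 _ rfl)
    have hch : kind (sg s ((x - 5) / 4)) ((y - 4) / 6) = .dblk →
        ch ((x - 5) / 4) = ch' ((x - 5) / 4) := fun h =>
      h2 _ (hp _ _ _ (pty_kind h)).symm
    unfold vO
    rw [if_neg hy, if_neg hy]
    by_cases hx : x < 5
    · rw [if_pos hx, if_pos hx, hb]
    · rw [if_neg hx, if_neg hx]
      by_cases hx2 : x < 5 + 4 * s.length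
      · have hcr : kind (sg s ((x - 5) / 4)) ((y - 4) / 6) ≠ .cross := fun h =>
          hc ⟨by omega, hx2, h⟩
        rw [if_pos hx2, if_pos hx2, hb]
        revert hch hcr
        generalize kind (sg s ((x - 5) / 4)) ((y - 4) / 6) = K
        generalize (y - 4) % 6 = r
        intro hch hcr
        cases K
        · rcases r with _ | _ | r <;> rfl
        · exact absurd rfl hcr
        · rcases r with _ | _ | r <;> rfl
        · rw [hch rfl]
      · rw [if_neg hx2, if_neg hx2, hb]

theorem pty_hOE (ρ : RK) (r x : ℕ) : (∀ f g g', hOE ρ f g r x = hOE ρ f g' r x) ∨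
    ∀ f f' g, hOE ρ f g r x = hOE ρ f' g r x := by
  unfold hOE
  by_cases h1 : x < 4
  · left; intro f g g'; simp only [if_pos h1]
  by_cases h2 : x < 12
  · cases ρ
    · left; intro f g g'; simp only [if_neg h1, if_pos h2]
    · left; intro f g g'; simp only [if_neg h1, if_pos h2]
    · right; intro f f' g; simp only [if_neg h1, if_pos h2]
  · left; intro f g g'; simp only [if_neg h1, if_neg h2]

theorem pty_vOE (ρ : RK) (r x : ℕ) : (∀ f g g', vOE ρ f g r x = vOE ρ f g' r x) ∨
    ∀ f f' g, vOE ρ f g r x = vOE ρ f' g r x := by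
  unfold vOE
  by_cases h1 : x < 4
  · left; intro f g g'; simp only [if_pos h1]
  by_cases h2 : x < 12
  · cases ρ
    · left; intro f g g'; simp only [if_neg h1, if_pos h2]
    · left; intro f g g'; simp only [if_neg h1, if_pos h2]
    · right; intro f f' g; simp only [if_neg h1, if_pos h2]
  · left; intro f g g'; simp only [if_neg h1, if_neg h2]

theorem st_PTY : ST_PTY := by
  intro s M T pr pc hp x y
  constructor
  · by_cases hx : x < 5 + 4 * s.length
    · obtain ⟨b, hb⟩ := pty_hO s pr pc hp x y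
      refine ⟨b, fun a ch a' ch' h1 h2 => ?_⟩
      rw [hNU_old hx, hNU_old hx]
      unfold hUse
      rw [hb a ch a' ch' h1 h2]
    · rcases pty_hOE (rk T ((y - 4) / 6)) ((y - 4) % 6) (x - (5 + 4 * s.length)) with h | h
      · refine ⟨pr ((y - 4) / 6), fun a ch a' ch' h1 _ => ?_⟩
        unfold hNU
        rw [if_neg hx, if_neg hx, pty_bst s a a' _ s.length (h1 _ rfl),
          h _ (bst s a ((y - 4) / 6 - 1) s.length) (bst s a' ((y - 4) / 6 - 1) s.length)]
      · refine ⟨pr ((y - 4) / 6 - 1), fun a ch a' ch' h1 _ => ?_⟩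
        unfold hNU
        rw [if_neg hx, if_neg hx, pty_bst s a a' ((y - 4) / 6 - 1) s.length (h1 _ rfl),
          h (bst s a ((y - 4) / 6) s.length) (bst s a' ((y - 4) / 6) s.length)]
  · by_cases hx : x < 5 + 4 * s.length
    · obtain ⟨b, hb⟩ := pty_vO s pr pc hp x y
      refine ⟨b, fun a ch a' ch' h1 h2 => ?_⟩
      rw [vNU_old hx, vNU_old hx]
      unfold vUse
      rw [hb a ch a' ch' h1 h2]
    · rcases pty_vOE (rk T ((y - 4) / 6)) ((y - 4) % 6) (x - (5 + 4 * s.length)) with h | h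
      · refine ⟨pr ((y - 4) / 6), fun a ch a' ch' h1 _ => ?_⟩
        unfold vNU
        rw [if_neg hx, if_neg hx, pty_bst s a a' _ s.length (h1 _ rfl),
          h _ (bst s a ((y - 4) / 6 - 1) s.length) (bst s a' ((y - 4) / 6 - 1) s.length)]
      · refine ⟨pr ((y - 4) / 6 - 1), fun a ch a' ch' h1 _ => ?_⟩
        unfold vNU
        rw [if_neg hx, if_neg hx, pty_bst s a a' ((y - 4) / 6 - 1) s.length (h1 _ rfl),
          h (bst s a ((y - 4) / 6) s.length) (bst s a' ((y - 4) / 6) s.length)]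

end Pool.Agent.Helper96.SE
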